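import Mathlib

/-! Retractional skeletons that induce the same set and have no common subskeleton. -/

namespace Pool.Agent.Results.MP_fb95e7_gt.Counter

open Set Filter Topology
open Cardinal hiding univ

universe u

/-- retractional skeletons -/
structure Skel {K Γ : Type u} [TopologicalSpace K] [PartialOrder Γ] (r : Γ → K → K) : Prop where
  ne : Nonempty Γ
  dir : ∀ s t : Γ, ∃ w, s ≤ w ∧ t ≤ w
  sigma : ∀ s : ℕ → Γ, Monotone s → ∃ t, IsLUB (range s) t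
  cont : ∀ s, Continuous (r s)
  idem : ∀ s, r s ∘ r s = r s
  metr : ∀ s, TopologicalSpace.MetrizableSpace (range (r s))
  comm : ∀ s t, s ≤ t → r s = r s ∘ r t ∧ r s = r t ∘ r s
  seq : ∀ (s : ℕ → Γ) (t : Γ), StrictMono s → IsLUB (range s) t → ∀ x,
    Tendsto (fun n => r (s n) x) atTop (𝓝 (r t x))
  lim : ∀ x, Tendsto (fun s => r s x) atTop (𝓝 x)

/-- the induced set -/
def ind {K Γ : Type u} (r : Γ → K → K) : Set K := ⋃ s, range (r s)

/-- up to re-indexing, `R` is a subskeleton of `r` -/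
def SubSkel {K Λ Γ : Type u} [PartialOrder Λ] [PartialOrder Γ] (R : Λ → K → K)
    (r : Γ → K → K) : Prop :=
  ∃ Γ' : Set Γ, (∀ s, ∃ t ∈ Γ', s ≤ t) ∧
    (∀ (s : ℕ → Γ) (t : Γ), Monotone s → (∀ n, s n ∈ Γ') → IsLUB (range s) t → t ∈ Γ') ∧
    ∃ φ : Λ ≃o Γ', ∀ i, R i = r (φ i)

theorem Skel.seq' {K Γ : Type u} [TopologicalSpace K] [PartialOrder Γ] {r : Γ → K → K}
    (h : Skel r) (s : ℕ → Γ) (t : Γ) (hs : Monotone s) (ht : IsLUB (range s) t) (x : K) :
    Tendsto (fun n => r (s n) x) atTop (𝓝 (r t x)) := by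
  by_cases h0 : ∃ n, s n = t
  · obtain ⟨n, hn⟩ := h0
    refine tendsto_const_nhds.congr' ((eventually_ge_atTop n).mono fun m hm => ?_)
    change r t x = r (s m) x
    rw [le_antisymm (ht.1 ⟨m, rfl⟩) (hn ▸ hs hm)]
  refine tendsto_of_subseq_tendsto fun ns hns => ?_
  have h1 : ∀ n, ∀ᶠ k in atTop, s n < s (ns k) := fun n => by
    obtain ⟨m, hm⟩ : ∃ m, ¬ s m ≤ s n := by
      by_contra hc
      push Not at hc
      exact h0 ⟨n, le_antisymm (ht.1 ⟨n, rfl⟩) (ht.2 (forall_mem_range.2 hc))⟩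
    filter_upwards [hns.eventually_ge_atTop (max m n)] with k hk
    exact lt_of_le_of_ne (hs (le_of_max_le_right hk)) fun e => hm (e ▸ hs (le_of_max_le_left hk))
  have h2 : ∀ n j, ∃ k, s (ns n) < s (ns k) ∧ j ≤ ns k := fun n j =>
    ((h1 (ns n)).and (hns.eventually_ge_atTop j)).exists
  choose g hg1 hg2 using h2
  let ms : ℕ → ℕ := fun j => Nat.rec 0 (fun j k => g k j) j
  refine ⟨ms, h.seq (fun j => s (ns (ms j))) t (strictMono_nat_of_lt_succ fun j => hg1 _ _)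
    ⟨forall_mem_range.2 fun j => ht.1 ⟨_, rfl⟩, fun b hb => ht.2 (forall_mem_range.2 fun j => ?_)⟩ x⟩
  exact (hs (hg2 (ms j) j)).trans (hb ⟨j + 1, rfl⟩)

theorem bdd {c : Cardinal.{u}} (hc : c.IsRegular) (S : Set c.ord.ToType) (h : #S < c) :
    ∃ b, ∀ a ∈ S, a < b := by
  by_contra hn
  push Not at hn
  have := Order.cof_le (s := S) fun b => hn b
  rw [Ordinal.cof_toType, hc.cof_ord] at this
  exact not_lt.2 this h

theorem result (K Γ : Type u) [TopologicalSpace K] [CompactSpace K] [T2Space K] [PartialOrder Γ]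
    (r : Γ → K → K) (h : Skel r) :
    ∃ (Γ' : Type u) (_ : PartialOrder Γ') (r' : Γ' → K → K), Skel r' ∧ ind r' = ind r ∧
      ¬ ∃ (Λ : Type u) (_ : PartialOrder Λ) (R : Λ → K → K),
        Skel R ∧ SubSkel R r ∧ SubSkel R r' := by
  let c : Cardinal.{u} := Order.succ (max #Γ ℵ₀)
  have hc : c.IsRegular := isRegular_succ (le_max_right _ _)
  have hΓ : #Γ < c := (le_max_left _ _).trans_lt (Order.lt_succ _)
  have h0 : ℵ₀ < c := (le_max_right _ _).trans_lt (Order.lt_succ _)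
  obtain ⟨w0, -⟩ := bdd hc ∅ (by simpa using hc.pos)
  have := h.ne
  have : IsDirectedOrder Γ := ⟨h.dir⟩
  have : Nonempty c.ord.ToType := ⟨w0⟩
  refine ⟨Γ × c.ord.ToType, inferInstance, fun p => r p.1, ⟨inferInstance, fun s t => ?_,
    fun s hs => ?_, fun s => h.cont _, fun s => h.idem _, fun s => h.metr _,
    fun s t hst => h.comm _ _ hst.1, fun s t hs ht x => ?_, fun x => ?_⟩, ?_, ?_⟩
  · obtain ⟨w, h1, h2⟩ := h.dir s.1 t.1
    exact ⟨(w, max s.2 t.2), ⟨h1, le_max_left _ _⟩, ⟨h2, le_max_right _ _⟩⟩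
  · obtain ⟨t, ht⟩ := h.sigma (fun n => (s n).1) fun _ _ hn => (hs hn).1
    obtain ⟨b, hb⟩ := bdd hc (range fun n => (s n).2)
      (lt_of_le_of_lt (le_aleph0_iff_set_countable.2 (countable_range _)) h0)
    obtain ⟨m, hm, hm'⟩ := wellFounded_lt.has_min (upperBounds (range fun n => (s n).2))
      ⟨b, fun a ha => (hb a ha).le⟩
    refine ⟨(t, m), forall_mem_range.2 fun n => ⟨ht.1 ⟨n, rfl⟩, hm ⟨n, rfl⟩⟩, fun b hb =>
      ⟨ht.2 (forall_mem_range.2 fun n => (hb ⟨n, rfl⟩).1),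
        not_lt.1 (hm' _ (forall_mem_range.2 fun n => (hb ⟨n, rfl⟩).2))⟩⟩
  · refine h.seq' (fun n => (s n).1) t.1 (fun _ _ hn => (hs.monotone hn).1)
      ⟨forall_mem_range.2 fun n => (ht.1 ⟨n, rfl⟩).1, fun b hb => ?_⟩ x
    have : (b, t.2) ∈ upperBounds (range s) :=
      forall_mem_range.2 fun n => ⟨hb ⟨n, rfl⟩, (ht.1 ⟨n, rfl⟩).2⟩
    exact (ht.2 this).1
  · refine (h.lim x).comp (tendsto_atTop.2 fun b => ?_)
    exact (eventually_ge_atTop (b, w0)).mono fun p hp => hp.1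
  · ext x
    simp [ind]
  · rintro ⟨Λ, _, R, -, ⟨A, -, -, φ, -⟩, B, hB, -, ψ, -⟩
    obtain ⟨b, hb⟩ := bdd hc (Prod.snd '' B) (mk_image_le.trans_lt (by
      rw [← mk_congr ψ.toEquiv, mk_congr φ.toEquiv]
      exact (mk_set_le A).trans_lt hΓ))
    obtain ⟨t, ht, h1⟩ := hB (h.ne.some, b)
    exact not_lt.2 h1.2 (hb _ ⟨t, ht, rfl⟩)

end Pool.Agent.Results.MP_fb95e7_gt.Counter
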